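import Pool.Agent.Y92.ZX.Stm

/-!
# The points of a model satisfy the approximate relations
-/

set_option autoImplicit false
set_option linter.unusedSectionVars false

open Polynomial

namespace Pool.Agent.Y574.ZX

open Pool.Agent.Y226 Pool.Agent.Y226.ZG Pool.Agent.Y92.ZX

section lift

/-- coefficientwise lifts of bivariate polynomials -/
theorem exists_lift {A B : Type} [CommRing A] [CommRing B] (ρ : A →+* B)
    (hρ : Function.Surjective ρ) {d : ℕ} {h : B[X][X]} (hd : BD d h) :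
    ∃ h' : A[X][X], h'.map (mapRingHom ρ) = h ∧ BD d h' := by
  classical
  choose σ hσ using hρ
  have h0 : h = ∑ m ∈ box d, C (C (cf h m)) * (C X) ^ m.1 * X ^ m.2 := by
    have h1 := E2_eq_sum hd ((C : B[X] →+* B[X][X]).comp (C : B →+* B[X])) (C X) X
    have h2 : E2 ((C : B[X] →+* B[X][X]).comp (C : B →+* B[X])) (C X) X h = h := by
      rw [E2_apply]
      have h3 : eval₂RingHom ((C : B[X] →+* B[X][X]).comp (C : B →+* B[X])) (C X) =
          (C : B[X] →+* B[X][X]) := by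
        apply Polynomial.ringHom_ext
        · intro a
          simp
        · simp
      rw [h3, eval₂_C_X]
    rw [h2] at h1
    exact h1
  refine ⟨∑ m ∈ box d, C (C (σ (cf h m)) * X ^ m.1) * X ^ m.2, ?_, ?_, ?_⟩
  · rw [Polynomial.map_sum]
    conv_rhs => rw [h0]
    refine Finset.sum_congr rfl fun m _ => ?_
    simp [hσ]
  · refine natDegree_sum_le_of_forall_le _ _ fun m hm => ?_
    refine (natDegree_C_mul_X_pow_le _ _).trans ?_
    simp only [box, Finset.mem_product, Finset.mem_range] at hm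
    omega
  · intro v
    rw [finsetSum_coeff]
    refine natDegree_sum_le_of_forall_le _ _ fun m hm => ?_
    simp only [box, Finset.mem_product, Finset.mem_range] at hm
    rw [coeff_C_mul_X_pow]
    split_ifs
    · exact (natDegree_C_mul_X_pow_le _ _).trans (by omega)
    · simp

end lift

section clear

variable {A σ L : Type} [CommRing A] [Field L]

/-- clearing denominators over a ring -/
noncomputable def clrR (h : A[X][X]) (d : ℕ) (u u' w w' : MvPolynomial σ A) : MvPolynomial σ A :=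
  ∑ m ∈ box d, MvPolynomial.C (cf h m) * (u ^ m.1 * u' ^ (d - m.1)) * (w ^ m.2 * w' ^ (d - m.2))

theorem clrR_map (θ : MvPolynomial σ A →+* L) (ι : A →+* L)
    (hι : ∀ c, θ (MvPolynomial.C c) = ι c) {h : A[X][X]} {d : ℕ} (hd : BD d h)
    {u u' w w' : MvPolynomial σ A} {a b : L} (ha : θ u = a * θ u') (hb : θ w = b * θ w') :
    θ (clrR h d u u' w w') = θ u' ^ d * θ w' ^ d * E2 ι a b h := by
  unfold clrR
  rw [map_sum, E2_eq_sum hd, Finset.mul_sum]
  refine Finset.sum_congr rfl fun m hm => ?_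
  simp only [box, Finset.mem_product, Finset.mem_range] at hm
  have h1 : m.1 ≤ d := by omega
  have h2 : m.2 ≤ d := by omega
  have e1 : θ u' ^ d = θ u' ^ m.1 * θ u' ^ (d - m.1) := by rw [← pow_add, Nat.add_sub_cancel' h1]
  have e2 : θ w' ^ d = θ w' ^ m.2 * θ w' ^ (d - m.2) := by rw [← pow_add, Nat.add_sub_cancel' h2]
  simp only [map_mul, map_pow]
  rw [hι, ha, hb, e1, e2]
  ring

/-- numerators and denominators of monomials -/
noncomputable def mnumR {n : ℕ} (A : Type) [CommRing A] (v : Fin n → ℤ) : MvPolynomial (Fin n) A :=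
  ∏ i, MvPolynomial.X i ^ (v i).toNat

theorem mnumR_map {n : ℕ} (θ : MvPolynomial (Fin n) A →+* L) {y : Fin n → L}
    (hθ : ∀ i, θ (MvPolynomial.X i) = y i) (v : Fin n → ℤ) :
    θ (mnumR A v) = ∏ i, y i ^ (v i).toNat := by
  unfold mnumR
  rw [map_prod]
  refine Finset.prod_congr rfl fun i _ => ?_
  rw [map_pow, hθ]

theorem split_mon {n : ℕ} {y : Fin n → L} {v : Fin n → ℤ} (hv : ∀ i, v i ≠ 0 → y i ≠ 0) :
    ∏ i, y i ^ (v i).toNat = (∏ i, y i ^ v i) * ∏ i, y i ^ (-v i).toNat := by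
  rw [← Finset.prod_mul_distrib]
  exact Finset.prod_congr rfl fun i _ => zpow_split (hv i)

/-- the relation between two monomials as a polynomial -/
noncomputable def PV {n : ℕ} (h : A[X][X]) (d : ℕ) (v w : Fin n → ℤ) : MvPolynomial (Fin n) A :=
  clrR h d (mnumR A v) (mnumR A fun i => -v i) (mnumR A w) (mnumR A fun i => -w i)

theorem PV_eval {n : ℕ} (φ : A →+* L) {h : A[X][X]} {d : ℕ} (hd : BD d h) {y : Fin n → L}
    {v w : Fin n → ℤ} (hv : ∀ i, v i ≠ 0 → y i ≠ 0) (hw : ∀ i, w i ≠ 0 → y i ≠ 0) :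
    MvPolynomial.eval₂ φ y (PV h d v w) =
      (∏ i, y i ^ (-v i).toNat) ^ d * (∏ i, y i ^ (-w i).toNat) ^ d *
        E2 φ (∏ i, y i ^ v i) (∏ i, y i ^ w i) h := by
  have hX : ∀ i, MvPolynomial.eval₂Hom φ y (MvPolynomial.X i) = y i := fun i => by simp
  have h1 := clrR_map (MvPolynomial.eval₂Hom φ y) φ (fun c => by simp) hd
    (u := mnumR A v) (u' := mnumR A fun i => -v i) (w := mnumR A w) (w' := mnumR A fun i => -w i)
    (a := ∏ i, y i ^ v i) (b := ∏ i, y i ^ w i)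
    (by rw [mnumR_map _ hX, mnumR_map _ hX]; exact split_mon hv)
    (by rw [mnumR_map _ hX, mnumR_map _ hX]; exact split_mon hw)
  rw [mnumR_map _ hX, mnumR_map _ hX] at h1
  exact h1

theorem eval₂_E2 {n : ℕ} (φ : A →+* L) (y : Fin n → L) (P P' : MvPolynomial (Fin n) A)
    (h : A[X][X]) : MvPolynomial.eval₂ φ y (E2 MvPolynomial.C P P' h) =
      E2 φ (MvPolynomial.eval₂ φ y P) (MvPolynomial.eval₂ φ y P') h := by
  have h1 := map_E2 (MvPolynomial.eval₂Hom φ y) (MvPolynomial.C : A →+* MvPolynomial (Fin n) A)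
    P P' h
  have h2 : (MvPolynomial.eval₂Hom φ y).comp (MvPolynomial.C : A →+* MvPolynomial (Fin n) A) =
      φ := by
    ext c
    simp
  rw [h2] at h1
  exact h1

end clear

section charts

/-- the change of charts -/
def tw {L : Type} [Field L] {n : ℕ} (c : Option (Fin n)) (ξ : Fin n → L) : Fin n → L :=
  match c with
  | none => ξ
  | some a => Function.update ξ a (ξ a)⁻¹

theorem tw_ne {L : Type} [Field L] {n : ℕ} (c : Option (Fin n)) {ξ : Fin n → L}
    (h : ∀ i, ξ i ≠ 0) (i : Fin n) : tw c ξ i ≠ 0 := by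
  cases c with
  | none => exact h i
  | some a =>
    show Function.update ξ a (ξ a)⁻¹ i ≠ 0
    by_cases hi : i = a
    · subst hi
      rw [Function.update_self]
      exact inv_ne_zero (h i)
    · rw [Function.update_of_ne hi]
      exact h i

theorem tw_of_ne {L : Type} [Field L] {n : ℕ} {c : Option (Fin n)} (ξ : Fin n → L) {i : Fin n}
    (h : c ≠ some i) : tw c ξ i = ξ i := by
  cases c with
  | none => rfl
  | some a =>
    show Function.update ξ a (ξ a)⁻¹ i = ξ i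
    exact Function.update_of_ne (fun hi => h (by rw [hi])) _ _

theorem tw_self {L : Type} [Field L] {n : ℕ} (ξ : Fin n → L) (i : Fin n) :
    tw (some i) ξ i = (ξ i)⁻¹ := by
  show Function.update ξ i (ξ i)⁻¹ i = (ξ i)⁻¹
  exact Function.update_self _ _ _

theorem tw_tw {L : Type} [Field L] {n : ℕ} (c : Option (Fin n)) (ξ : Fin n → L) :
    tw c (tw c ξ) = ξ := by
  funext i
  by_cases h : c = some i
  · subst h
    rw [tw_self, tw_self, inv_inv]
  · rw [tw_of_ne _ h, tw_of_ne _ h]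

/-- products of powers do not see the inverted coordinate if the exponent is zero there -/
theorem tw_mon {L : Type} [Field L] {n : ℕ} (c : Option (Fin n)) (ξ : Fin n → L)
    (v : Fin n → ℤ) (hv : ∀ i, c = some i → v i = 0) :
    ∏ i, tw c ξ i ^ v i = ∏ i, ξ i ^ v i := by
  refine Finset.prod_congr rfl fun i _ => ?_
  by_cases h : c = some i
  · rw [hv i h, zpow_zero, zpow_zero]
  · rw [tw_of_ne _ h]

variable {A 𝕜 : Type} [CommRing A] [Field 𝕜] {n d₀ : ℕ} {κ : Type} {π : A →+* 𝕜}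
  {F : κ → MvPolynomial (Fin n × Bool) A}

/-- criterion for the ideal of the reduction in a chart -/
theorem mem_chI (hC : S_CHT) (hG : GM d₀ π F) (c : Option (Fin n)) (f : MvPolynomial (Fin n) A)
    (hf : ∀ (𝔽 : Type) [Field 𝔽] [Algebra 𝕜 𝔽] (ξ : Fin n → 𝔽), (∀ i, ξ i ≠ 0) →
      (∀ g ∈ chI π F none, MvPolynomial.aeval (tw c ξ) g = 0) →
      MvPolynomial.eval₂ ((algebraMap 𝕜 𝔽).comp π) ξ f = 0) :
    MvPolynomial.map π f ∈ chI π F c := by
  have := hG.prime c
  obtain ⟨𝔽, _, _, ξ, _, hξ⟩ := ff_of_prime (chI π F c)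
  have hX : ∀ i, MvPolynomial.X i ∉ chI π F c := by
    intro i
    cases c with
    | none =>
      have := hG.const i 0
      rwa [map_zero, sub_zero] at this
    | some a => exact (hC A 𝕜 n κ d₀ π F hG a).1 i
  have h0 : ∀ i, ξ i ≠ 0 := by
    intro i h
    refine hX i ((hξ _).1 ?_)
    rw [MvPolynomial.aeval_X, h]
  rw [← hξ, MvPolynomial.aeval_def, MvPolynomial.eval₂_map]
  refine hf 𝔽 ξ h0 ?_
  cases c with
  | none => exact fun g hg => (hξ g).2 hg
  | some a => exact (hC A 𝕜 n κ d₀ π F hG a).2 𝔽 ξ (h0 a) fun g hg => (hξ g).2 hg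

/-- scaling a pair of homogeneous coordinates -/
theorem scale {L : Type} [Field L] (φ : A →+* L) {G : MvPolynomial (Fin n × Bool) A}
    (hG : MHom G) (z z' : Fin n × Bool → L) (a : Fin n) (s : L)
    (hz : ∀ q, z' q = (if q.1 = a then s else 1) * z q)
    (h0 : MvPolynomial.eval₂ φ z G = 0) : MvPolynomial.eval₂ φ z' G = 0 := by
  obtain ⟨δ, hδ⟩ := hG
  have key : MvPolynomial.eval₂ φ z' G = s ^ δ a * MvPolynomial.eval₂ φ z G := by
    rw [MvPolynomial.eval₂_eq', MvPolynomial.eval₂_eq', Finset.mul_sum]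
    refine Finset.sum_congr rfl fun m hm => ?_
    have h1 : ∏ q, z' q ^ m q = s ^ δ a * ∏ q, z q ^ m q := by
      have h2 : ∀ q, z' q ^ m q = (if q.1 = a then s else 1) ^ m q * z q ^ m q := by
        intro q
        rw [hz, mul_pow]
      simp only [h2]
      rw [Finset.prod_mul_distrib]
      congr 1
      rw [Fintype.prod_prod_type, Finset.prod_eq_single a]
      · rw [Fintype.prod_bool, if_pos rfl, ← pow_add, ← hδ m hm a, add_comm]
      · intro i _ hi
        rw [Fintype.prod_bool]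
        simp [if_neg hi]
      · intro h
        exact absurd (Finset.mem_univ a) h
    rw [h1]
    ring
  rw [key, h0, mul_zero]

/-- zeros in the other charts -/
theorem zero_tw {L : Type} [Field L] (φ : A →+* L) {G : MvPolynomial (Fin n × Bool) A}
    (hG : MHom G) (c : Option (Fin n)) (x : Fin n → L) (hx : ∀ a, c = some a → x a ≠ 0)
    (h0 : MvPolynomial.eval₂ φ (chv none x) G = 0) :
    MvPolynomial.eval₂ φ (chv c (tw c x)) G = 0 := by
  cases c with
  | none => exact h0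
  | some a =>
    refine scale φ hG _ _ a (x a)⁻¹ ?_ h0
    rintro ⟨i, b⟩
    unfold chv
    by_cases hi : i = a
    · subst hi
      have := hx i rfl
      cases b <;> simp [tw_self, this]
    · have h2 : (some a : Option (Fin n)) ≠ some i := fun h => hi (Option.some.inj h).symm
      simp only [if_neg h2, tw_of_ne x h2, if_neg hi, one_mul]
      simp

end charts

section bad

variable {C : Type} [NormedField C] [IsUltrametricDist C]

/-- a corner dominates -/
theorem dom {a b : ℕ} (g : ℕ → ℕ → C) (hg : ∀ u v, ‖g u v‖ ≤ 1) (h00 : ‖g 0 0‖ = 1)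
    (ha0 : ‖g a 0‖ = 1) (h0b : ‖g 0 b‖ = 1) (hab : ‖g a b‖ = 1) {x y : C} (hi : ‖x‖ ≠ 1)
    (hj : ‖y‖ ≠ 1) :
    ∑ u ∈ Finset.range (a + 1), ∑ v ∈ Finset.range (b + 1), g u v * x ^ u * y ^ v ≠ 0 := by
  classical
  intro hrel
  rw [← Finset.sum_product'] at hrel
  set u₀ := if ‖x‖ < 1 then 0 else a with hu₀
  set v₀ := if ‖y‖ < 1 then 0 else b with hv₀
  have hmem : (u₀, v₀) ∈ Finset.range (a + 1) ×ˢ Finset.range (b + 1) := by
    rw [Finset.mem_product, Finset.mem_range, Finset.mem_range, hu₀, hv₀]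
    constructor
    · split_ifs <;> simp
    · split_ifs <;> simp
  have hunit : ‖g u₀ v₀‖ = 1 := by
    rw [hu₀, hv₀]
    split_ifs
    · exact h00
    · exact h0b
    · exact ha0
    · exact hab
  have hxi : ∀ u ≤ a, ‖x‖ ^ u ≤ ‖x‖ ^ u₀ ∧ (u ≠ u₀ → ‖x‖ ^ u < ‖x‖ ^ u₀) := by
    intro u hu
    rw [hu₀]
    split_ifs with h
    · refine ⟨by rw [pow_zero]; exact pow_le_one₀ (norm_nonneg _) h.le, fun hne => ?_⟩
      rw [pow_zero]
      exact pow_lt_one₀ (norm_nonneg _) h hne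
    · have h1 : 1 < ‖x‖ := lt_of_le_of_ne (not_lt.1 h) (Ne.symm hi)
      exact ⟨pow_le_pow_right₀ h1.le hu, fun hne => pow_lt_pow_right₀ h1 (by omega)⟩
  have hxj : ∀ v ≤ b, ‖y‖ ^ v ≤ ‖y‖ ^ v₀ ∧ (v ≠ v₀ → ‖y‖ ^ v < ‖y‖ ^ v₀) := by
    intro v hv
    rw [hv₀]
    split_ifs with h
    · refine ⟨by rw [pow_zero]; exact pow_le_one₀ (norm_nonneg _) h.le, fun hne => ?_⟩
      rw [pow_zero]
      exact pow_lt_one₀ (norm_nonneg _) h hne
    · have h1 : 1 < ‖y‖ := lt_of_le_of_ne (not_lt.1 h) (Ne.symm hj)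
      exact ⟨pow_le_pow_right₀ h1.le hv, fun hne => pow_lt_pow_right₀ h1 (by omega)⟩
  have hpi : 0 < ‖x‖ ^ u₀ := by
    rw [hu₀]
    split_ifs with h
    · simp
    · exact pow_pos (one_pos.trans (lt_of_le_of_ne (not_lt.1 h) (Ne.symm hi))) _
  have hpj : 0 < ‖y‖ ^ v₀ := by
    rw [hv₀]
    split_ifs with h
    · simp
    · exact pow_pos (one_pos.trans (lt_of_le_of_ne (not_lt.1 h) (Ne.symm hj))) _
  set P := ‖x‖ ^ u₀ * ‖y‖ ^ v₀ with hP
  have hPpos : 0 < P := mul_pos hpi hpj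
  rw [← Finset.add_sum_erase _ _ hmem] at hrel
  have h1 : ‖g u₀ v₀ * x ^ u₀ * y ^ v₀‖ = P := by
    rw [norm_mul, norm_mul, hunit, one_mul, norm_pow, norm_pow]
  have h2 : ‖∑ q ∈ (Finset.range (a + 1) ×ˢ Finset.range (b + 1)).erase (u₀, v₀),
      g q.1 q.2 * x ^ q.1 * y ^ q.2‖ < P := by
    have h3 : ∀ q ∈ (Finset.range (a + 1) ×ˢ Finset.range (b + 1)).erase (u₀, v₀),
        ‖g q.1 q.2 * x ^ q.1 * y ^ q.2‖ < P := by
      rintro ⟨u, v⟩ hy
      obtain ⟨hne, hy⟩ := Finset.mem_erase.1 hy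
      rw [Finset.mem_product, Finset.mem_range, Finset.mem_range] at hy
      have hu : u ≤ a := by have := hy.1; omega
      have hv : v ≤ b := by have := hy.2; omega
      simp only
      rw [mul_assoc, norm_mul]
      have h4 : ‖g u v‖ * ‖x ^ u * y ^ v‖ ≤ 1 * ‖x ^ u * y ^ v‖ := by
        gcongr
        exact hg _ _
      refine h4.trans_lt ?_
      rw [one_mul, norm_mul, norm_pow, norm_pow, hP]
      by_cases h5 : u = u₀
      · have h6 : v ≠ v₀ := by rintro rfl; exact hne (by rw [h5])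
        rw [h5]
        exact mul_lt_mul_of_pos_left ((hxj v hv).2 h6) hpi
      · calc ‖x‖ ^ u * ‖y‖ ^ v ≤ ‖x‖ ^ u * ‖y‖ ^ v₀ :=
              mul_le_mul_of_nonneg_left (hxj v hv).1 (by positivity)
          _ < ‖x‖ ^ u₀ * ‖y‖ ^ v₀ := mul_lt_mul_of_pos_right ((hxi u hu).2 h5) hpj
    by_cases hemp : ((Finset.range (a + 1) ×ˢ Finset.range (b + 1)).erase (u₀, v₀)).Nonempty
    · obtain ⟨q, hq, hle⟩ := IsUltrametricDist.exists_norm_finsetSum_le_of_nonempty hemp
        (fun q => g q.1 q.2 * x ^ q.1 * y ^ q.2)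
      exact hle.trans_lt (h3 q hq)
    · rw [Finset.not_nonempty_iff_eq_empty.1 hemp, Finset.sum_empty, norm_zero]
      exact hPpos
  have h3 : g u₀ v₀ * x ^ u₀ * y ^ v₀ =
      -∑ q ∈ (Finset.range (a + 1) ×ˢ Finset.range (b + 1)).erase (u₀, v₀),
      g q.1 q.2 * x ^ q.1 * y ^ q.2 := eq_neg_of_add_eq_zero_left hrel
  rw [h3, norm_neg] at h1
  exact absurd h1 h2.ne

end bad

section main

variable {C : Type} [NormedField C] [IsUltrametricDist C] {p : ℕ} [hpf : Fact p.Prime]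
  {𝕜 : Type} [Field 𝕜] {ρ : Nr C p →+* 𝕜} {n d₀ : ℕ} {κ : Type}
  {F : κ → MvPolynomial (Fin n × Bool) (Nr C p)}

theorem norm_one_of (h0 : ∀ r : Nr C p, ρ r = 0 ↔ ‖(r : C)‖ < 1) {r : Nr C p} (h : ρ r ≠ 0) :
    ‖(r : C)‖ = 1 :=
  le_antisymm (Nr_le r.2) (not_lt.1 fun h1 => h ((h0 r).2 h1))

/-- at most one coordinate is bad -/
theorem ob (h0 : ∀ r : Nr C p, ρ r = 0 ↔ ‖(r : C)‖ < 1) (hG : GM d₀ ρ F) {x : Fin n → C}
    (hx : ∀ t, MvPolynomial.eval₂ (Nr C p).subtype (chv none x) (F t) = 0) {i j : Fin n}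
    (hij : i ≠ j) : ‖x i‖ = 1 ∨ ‖x j‖ = 1 := by
  by_contra hcon
  push Not at hcon
  obtain ⟨a, b, g, -, -, c1, c2, c3, c4, -, hmem⟩ := hG.gen i j hij
  have h1 : MvPolynomial.eval₂ (Nr C p).subtype (chv none x) (bh i j a b g) = 0 := by
    have h2 : Ideal.span (Set.range F) ≤
        RingHom.ker (MvPolynomial.eval₂Hom (Nr C p).subtype (chv none x)) := by
      rw [Ideal.span_le]
      rintro _ ⟨t, rfl⟩
      exact hx t
    exact h2 hmem
  refine dom (fun u v => ((g u v : Nr C p) : C)) (fun u v => Nr_le (g u v).2)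
    (norm_one_of h0 c1) (norm_one_of h0 c2) (norm_one_of h0 c3) (norm_one_of h0 c4)
    hcon.1 hcon.2 ?_
  rw [← h1]
  unfold bh
  rw [MvPolynomial.eval₂_sum]
  refine Finset.sum_congr rfl fun u _ => ?_
  rw [MvPolynomial.eval₂_sum]
  refine Finset.sum_congr rfl fun v _ => ?_
  simp [chv]

/-- the chart of a point -/
theorem exists_chart (h0 : ∀ r : Nr C p, ρ r = 0 ↔ ‖(r : C)‖ < 1) (hG : GM d₀ ρ F)
    {x : Fin n → C} (hx : ∀ t, MvPolynomial.eval₂ (Nr C p).subtype (chv none x) (F t) = 0) :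
    ∃ c : Option (Fin n), (∀ i, ‖tw c x i‖ ≤ 1) ∧ ∀ i, c = some i ↔ 1 < ‖x i‖ := by
  by_cases h : ∃ a, 1 < ‖x a‖
  · obtain ⟨a, ha⟩ := h
    refine ⟨some a, ?_, ?_⟩
    · intro i
      by_cases hi : i = a
      · subst hi
        rw [tw_self, norm_inv]
        exact inv_le_one_of_one_le₀ ha.le
      · rw [tw_of_ne _ (fun h => hi (Option.some.inj h).symm)]
        rcases ob h0 hG hx hi with h1 | h1
        · exact h1.le
        · exact absurd h1 ha.ne'
    · intro i
      constructor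
      · intro h
        rw [← Option.some.inj h]
        exact ha
      · intro h
        by_contra hne
        have hi : i ≠ a := fun h1 => hne (by rw [h1])
        rcases ob h0 hG hx hi with h1 | h1
        · exact h.ne' h1
        · exact ha.ne' h1
  · push Not at h
    exact ⟨none, h, fun i => ⟨fun h' => absurd h' (by simp), fun h' => absurd h' (not_lt.2 (h i))⟩⟩

theorem eva_le (hE : S_EVA) (hs : Function.Surjective ρ) (hp0 : 0 < ‖(p : C)‖)
    (hp1 : ‖(p : C)‖ < 1) (h0 : ∀ r : Nr C p, ρ r = 0 ↔ ‖(r : C)‖ < 1) (hG : GM d₀ ρ F)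
    {c : Option (Fin n)} {f : MvPolynomial (Fin n) (Nr C p)}
    (hf : MvPolynomial.map ρ f ∈ chI ρ F c) {x : Fin n → C}
    (hx : ∀ t, MvPolynomial.eval₂ (Nr C p).subtype (chv none x) (F t) = 0)
    (hc : ∀ i, ‖tw c x i‖ ≤ 1) (hc' : ∀ a, c = some a → x a ≠ 0) :
    ‖MvPolynomial.eval₂ (Nr C p).subtype (tw c x) f‖ ≤ ‖(p : C)‖ := by
  obtain ⟨R', hR'⟩ := hE C p 𝕜 ρ hs hp0 hp1 h0 n κ F c f hf
  rw [hR' _ fun t => zero_tw _ (hG.hom t) c x hc' (hx t)]
  refine nmul_le' le_rfl ?_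
  rw [MvPolynomial.eval₂_eq']
  refine nsum_le _ _ zero_le_one fun m _ => nmul_le ?_ (nprod_le _ _ fun i _ => npow_le (hc i) _)
  exact (MvPolynomial.coeff m R').2

theorem pt (hC : S_CHT) (hE : S_EVA) (_ : S_GMCC) : S_PT := by
  classical
  intro C _ _ p _ 𝕜 _ ρ hs hp0 hp1 h0 n d₀ κ F hF N W M d D 𝓡 hR
  -- the lifts
  have hl : ∀ v w : Fin n → ℤ, ∃ h' : (Nr C p)[X][X], Bv M v → Bv M w → LI v w →
      h'.map (mapRingHom ρ) = 𝓡.h v w ∧ BD d h' := by
    intro v w
    by_cases h : Bv M v ∧ Bv M w ∧ LI v w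
    · obtain ⟨h', h1, h2⟩ := exists_lift ρ hs (𝓡.hBD v w h.1 h.2.1 h.2.2)
      exact ⟨h', fun _ _ _ => ⟨h1, h2⟩⟩
    · exact ⟨0, fun a b c => absurd ⟨a, b, c⟩ h⟩
  choose ht hht using hl
  -- the relations between monomials
  have hPV : ∀ (c : Option (Fin n)) (v w : Fin n → ℤ), Bv M v → Bv M w → LI v w →
      (∀ i, c = some i → v i = 0 ∧ w i = 0) →
      MvPolynomial.map ρ (PV (ht v w) d v w) ∈ chI ρ F c := by
    intro c v w hv hw hvw hc
    obtain ⟨e1, e2⟩ := hht v w hv hw hvw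
    refine mem_chI hC hF c _ ?_
    intro 𝔽 _ _ ξ hξ hz
    rw [PV_eval _ e2 (fun i _ => hξ i) (fun i _ => hξ i)]
    have h1 := (hR 𝔽 (tw c ξ) hz (tw_ne c hξ)).2 v w hv hw hvw
    rw [tw_mon c ξ v (fun i hi => (hc i hi).1), tw_mon c ξ w (fun i hi => (hc i hi).2), ← e1,
      E2_map] at h1
    rw [h1, mul_zero]
  have hrho : ∀ v w : Fin n → ℤ, ∃ R' : MvPolynomial (Fin n) (OO C), Bv M v → Bv M w →
      LI v w → ∀ y : Fin n → C,
      (∀ t, MvPolynomial.eval₂ (Nr C p).subtype (chv none y) (F t) = 0) →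
      MvPolynomial.eval₂ (Nr C p).subtype y (PV (ht v w) d v w) =
        p * MvPolynomial.eval₂ (OO C).subtype y R' := by
    intro v w
    by_cases h : Bv M v ∧ Bv M w ∧ LI v w
    · obtain ⟨R', hR'⟩ := hE C p 𝕜 ρ hs hp0 hp1 h0 n κ F none _
        (hPV none v w h.1 h.2.1 h.2.2 (fun i hi => absurd hi (by simp)))
      exact ⟨R', fun _ _ _ => hR'⟩
    · exact ⟨0, fun a b c => absurd ⟨a, b, c⟩ h⟩
  choose R' hR' using hrho
  refine ⟨ht, fun v w => MvPolynomial.rename (fun i => (i, false)) (R' v w) *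
    (∏ i, MvPolynomial.X (i, true) ^ (-v i).toNat) ^ d *
    (∏ i, MvPolynomial.X (i, true) ^ (-w i).toNat) ^ d, hht, ?_⟩
  intro x hx
  obtain ⟨c, hc1, hc2⟩ := exists_chart h0 hF hx
  have hc3 : ∀ a, c = some a → x a ≠ 0 := by
    intro a ha h
    have h1 := (hc2 a).1 ha
    rw [h, norm_zero] at h1
    exact absurd h1 (by norm_num)
  refine ⟨fun i j hij => ob h0 hF hx hij, ?_, ?_, ?_⟩
  · -- the relations between two coordinates
    intro i s j hij hs' hj g' hg'
    have hcj : c ≠ some j := fun h => absurd ((hc2 j).1 h) (not_lt.2 hj)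
    have hci : s = false ∧ c ≠ some i ∨ s = true ∧ c = some i := by
      rcases hs' with ⟨h1, h2⟩ | ⟨h1, h2⟩
      · exact Or.inl ⟨h1, fun h => absurd ((hc2 i).1 h) (not_lt.2 h2)⟩
      · exact Or.inr ⟨h1, (hc2 i).2 h2⟩
    have hi : xs x i s = tw c x i := by
      rcases hci with ⟨rfl, h2⟩ | ⟨rfl, h2⟩
      · rw [tw_of_ne _ h2]
        simp [xs]
      · rw [h2, tw_self]
        simp [xs]
    have hj' : x j = tw c x j := (tw_of_ne _ hcj).symm
    have hmem : MvPolynomial.map ρ (E2 MvPolynomial.C (MvPolynomial.X i) (MvPolynomial.X j) g') ∈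
        chI ρ F c := by
      refine mem_chI hC hF c _ ?_
      intro 𝔽 _ _ ξ hξ hz
      rw [eval₂_E2, MvPolynomial.eval₂_X, MvPolynomial.eval₂_X]
      have h1 := (hR 𝔽 (tw c ξ) hz (tw_ne c hξ)).1 i s j hij
      have e1 : xs (tw c ξ) i s = ξ i := by
        rcases hci with ⟨rfl, h2⟩ | ⟨rfl, h2⟩
        · simp only [xs]
          rw [tw_of_ne _ h2]
          simp
        · simp only [xs]
          rw [h2, tw_self]
          simp
      rw [e1, tw_of_ne _ hcj, ← hg', E2_map] at h1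
      exact h1
    have h2 := eva_le hE hs hp0 hp1 h0 hF hmem hx hc1 hc3
    rw [eval₂_E2, MvPolynomial.eval₂_X, MvPolynomial.eval₂_X, ← hi, ← hj'] at h2
    exact h2
  · -- the relations between monomials
    intro v w hv hw hvw hsup
    have hc : ∀ i, c = some i → v i = 0 ∧ w i = 0 := by
      intro i hi
      have h1 := (hc2 i).1 hi
      by_contra hcon
      have h2 : v i ≠ 0 ∨ w i ≠ 0 := by
        by_contra h3
        push Not at h3
        exact hcon h3
      rw [hsup i h2] at h1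
      exact lt_irrefl _ h1
    have h1 := eva_le hE hs hp0 hp1 h0 hF (hPV c v w hv hw hvw hc) hx hc1 hc3
    have hne : ∀ i, v i ≠ 0 ∨ w i ≠ 0 → ‖tw c x i‖ = 1 := by
      intro i hi
      have h2 : c ≠ some i := by
        intro h
        rcases hi with h3 | h3
        · exact h3 (hc i h).1
        · exact h3 (hc i h).2
      rw [tw_of_ne _ h2]
      exact hsup i hi
    have hy : ∀ i, v i ≠ 0 ∨ w i ≠ 0 → tw c x i ≠ 0 := by
      intro i hi
      rw [← norm_ne_zero_iff, hne i hi]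
      exact one_ne_zero
    have m1 : ‖∏ i, tw c x i ^ (-v i).toNat‖ = 1 := by
      rw [norm_prod]
      refine Finset.prod_eq_one fun i _ => ?_
      rw [norm_pow]
      by_cases hvi : v i = 0
      · simp [hvi]
      · rw [hne i (Or.inl hvi), one_pow]
    have m2 : ‖∏ i, tw c x i ^ (-w i).toNat‖ = 1 := by
      rw [norm_prod]
      refine Finset.prod_eq_one fun i _ => ?_
      rw [norm_pow]
      by_cases hwi : w i = 0
      · simp [hwi]
      · rw [hne i (Or.inr hwi), one_pow]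
    rw [PV_eval _ (hht v w hv hw hvw).2 (fun i hi => hy i (Or.inl hi))
      (fun i hi => hy i (Or.inr hi)), tw_mon c x v (fun i hi => (hc i hi).1),
      tw_mon c x w (fun i hi => (hc i hi).2), norm_mul, norm_mul, norm_pow, norm_pow, m1, m2,
      one_pow, one_mul, one_mul] at h1
    exact h1
  · -- the exact relations
    intro v w hv hw hvw hun
    have hne : ∀ i, x i ≠ 0 := by
      intro i
      rw [← norm_ne_zero_iff, hun i]
      exact one_ne_zero
    have h1 := hR' v w hv hw hvw x hx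
    rw [PV_eval _ (hht v w hv hw hvw).2 (fun i _ => hne i) (fun i _ => hne i)] at h1
    have e1 : (xx x ∘ fun i => (i, false)) = x := by
      funext i
      simp [xx]
    have e2 : ∀ v : Fin n → ℤ, MvPolynomial.eval₂ (OO C).subtype (xx x)
        (∏ i, MvPolynomial.X (i, true) ^ (-v i).toNat) = (∏ i, x i ^ (-v i).toNat)⁻¹ := by
      intro v
      rw [MvPolynomial.eval₂_prod, ← Finset.prod_inv_distrib]
      refine Finset.prod_congr rfl fun i _ => ?_
      rw [MvPolynomial.eval₂_pow, MvPolynomial.eval₂_X, ← inv_pow]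
      simp [xx]
    have q1 : ∏ i, x i ^ (-v i).toNat ≠ 0 :=
      Finset.prod_ne_zero_iff.2 fun i _ => pow_ne_zero _ (hne i)
    have q2 : ∏ i, x i ^ (-w i).toNat ≠ 0 :=
      Finset.prod_ne_zero_iff.2 fun i _ => pow_ne_zero _ (hne i)
    rw [MvPolynomial.eval₂_mul, MvPolynomial.eval₂_mul, MvPolynomial.eval₂_pow,
      MvPolynomial.eval₂_pow, e2, e2, MvPolynomial.eval₂_rename, e1, ← mul_assoc, ← mul_assoc,
      ← h1, inv_pow, inv_pow]
    have q3 := pow_ne_zero d q1
    have q4 := pow_ne_zero d q2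
    generalize (∏ i, x i ^ (-v i).toNat) ^ d = a at q3 ⊢
    generalize (∏ i, x i ^ (-w i).toNat) ^ d = b at q4 ⊢
    generalize E2 (Nr C p).subtype (∏ i, x i ^ v i) (∏ i, x i ^ w i) (ht v w) = e
    have h2 : a * b * e * a⁻¹ * b⁻¹ = (a * a⁻¹) * (b * b⁻¹) * e := by ring
    rw [h2, mul_inv_cancel₀ q3, mul_inv_cancel₀ q4, one_mul, one_mul]

end main

end Pool.Agent.Y574.ZX
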